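import Pool.Agent.H4.TA.Targets

/-!
# Elementary properties of the return probabilities
-/

set_option autoImplicit false

open Finset Pool.Agent.H43.TC Pool.Agent.H4.TA

namespace Pool.Agent.H67.TA

theorem pos_left {k i j : ℕ} (w : Wd k (i + j)) {l : ℕ} (hl : l ≤ i) :
    pos w l = pos (fun x => w (Fin.castAdd j x) : Wd k i) l := by
  have h := pos_append_left (fun x => w (Fin.castAdd j x) : Wd k i)
    (fun x => w (Fin.natAdd i x) : Wd k j) hl
  rwa [Fin.append_castAdd_natAdd] at h

theorem pos_right {k i j : ℕ} (w : Wd k (i + j)) (l : ℕ) :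
    pos w (i + l) = pos w i + pos (fun x => w (Fin.natAdd i x) : Wd k j) l := by
  have h := pos_append_right (fun x => w (Fin.castAdd j x) : Wd k i)
    (fun x => w (Fin.natAdd i x) : Wd k j) l
  rwa [Fin.append_castAdd_natAdd, ← pos_left w le_rfl] at h

theorem pf_QAN (hSPL : T_SPL) : T_QAN := by
  intro k hk
  refine ⟨?_, ?_, ?_, ?_, ?_⟩
  · unfold pp
    have : (fun w : Wd k 0 => ind (pos w 0 = 0)) = fun _ => 1 := by
      funext w
      exact ind_true (pos_zero w)
    rw [this, av_const hk]
  · unfold qq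
    have : (fun w : Wd k 0 => ind (∀ i, 1 ≤ i → i ≤ 0 → pos w i ≠ 0)) = fun _ => 1 := by
      funext w
      exact ind_true fun i h1 h2 => by omega
    rw [this, av_const hk]
  · refine antitone_nat_of_succ_le fun t => ?_
    have h := hSPL k t 1 (fun u => ind (∀ i, 1 ≤ i → i ≤ t → pos u i ≠ 0)) (fun _ => 1) hk
    rw [av_const hk, mul_one] at h
    have h1 : qq k t = av t fun u : Wd k t => ind (∀ i, 1 ≤ i → i ≤ t → pos u i ≠ 0) := rfl
    rw [h1, ← h]
    unfold qq
    refine av_mono fun w => ?_
    rw [mul_one]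
    refine ind_mono fun hw i hi1 hi2 => ?_
    rw [← pos_left w hi2]
    exact hw i hi1 (by omega)
  · intro j
    exact av_nonneg fun w => ind_nonneg _
  · intro j
    exact av_nonneg fun w => ind_nonneg _

end Pool.Agent.H67.TA
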