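import Pool.Agent.H67.TA.QAN

/-!
# Last visit to the starting point
-/

set_option autoImplicit false

open Finset Pool.Agent.H43.TC Pool.Agent.H4.TA

namespace Pool.Agent.H67.TA

theorem last_visit {k t : ℕ} (w : Wd k t) :
    ∑ j ∈ range (t + 1), ind (pos w j = 0) * ind (∀ i, j < i → i ≤ t → pos w i ≠ 0) = 1 := by
  classical
  set S := (range (t + 1)).filter fun j => pos w j = 0 with hS
  have hne : S.Nonempty := ⟨0, by rw [hS, mem_filter, mem_range]; exact ⟨by omega, pos_zero w⟩⟩
  set J := S.max' hne with hJ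
  have hJS : J ∈ S := S.max'_mem hne
  have hJS' := hJS
  rw [hS, mem_filter, mem_range] at hJS'
  have hmax : ∀ i, pos w i = 0 → i ≤ t → i ≤ J := fun i h1 h2 =>
    S.le_max' i (by rw [hS, mem_filter, mem_range]; exact ⟨by omega, h1⟩)
  rw [sum_eq_single J]
  · rw [ind_true hJS'.2, ind_true, one_mul]
    intro i h1 h2 h3
    have := hmax i h3 h2
    omega
  · intro j hj hjJ
    by_cases h : pos w j = 0
    · have h1 : j < J := lt_of_le_of_ne (hmax j h (by rw [mem_range] at hj; omega)) hjJ
      rw [ind_false (P := ∀ i, j < i → i ≤ t → pos w i ≠ 0), mul_zero]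
      intro h2
      exact h2 J h1 (by omega) hJS'.2
    · rw [ind_false h, zero_mul]
  · intro h
    exact absurd (mem_range.2 hJS'.1) h

theorem pf_REN (hSPL : T_SPL) : T_REN := by
  intro k t hk
  have h1 : av t (fun w : Wd k t => ∑ j ∈ range (t + 1),
      ind (pos w j = 0) * ind (∀ i, j < i → i ≤ t → pos w i ≠ 0)) = 1 := by
    have : (fun w : Wd k t => ∑ j ∈ range (t + 1),
        ind (pos w j = 0) * ind (∀ i, j < i → i ≤ t → pos w i ≠ 0)) = fun _ => 1 := by
      funext w
      exact last_visit w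
    rw [this, av_const hk]
  rw [av_sum] at h1
  rw [← h1]
  refine sum_congr rfl fun j hj => ?_
  rw [mem_range] at hj
  obtain ⟨l, rfl⟩ := Nat.exists_eq_add_of_le (show j ≤ t by omega)
  rw [Nat.add_sub_cancel_left]
  have h2 := hSPL k j l (fun u => ind (pos u j = 0))
    (fun v => ind (∀ i, 1 ≤ i → i ≤ l → pos v i ≠ 0)) hk
  have h3 : pp k j * qq k l = av j (fun u : Wd k j => ind (pos u j = 0)) *
    av l (fun v : Wd k l => ind (∀ i, 1 ≤ i → i ≤ l → pos v i ≠ 0)) := rfl
  rw [h3, ← h2]
  congr 1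
  funext w
  rw [← pos_left w le_rfl]
  by_cases h0 : pos w j = 0
  · rw [ind_true h0, one_mul, one_mul]
    refine ind_congr ⟨fun h i hi1 hi2 => ?_, fun h i hi1 hi2 => ?_⟩
    · obtain ⟨m, rfl⟩ := Nat.exists_eq_add_of_le (show j ≤ i by omega)
      rw [pos_right w m, h0, zero_add]
      exact h m (by omega) (by omega)
    · have := h (j + i) (by omega) (by omega)
      rwa [pos_right w i, h0, zero_add] at this
  · rw [ind_false h0, zero_mul, zero_mul]

end Pool.Agent.H67.TA
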