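import Pool.Agent.H4.TA.Targets

/-!
# Reversal of words
-/

set_option autoImplicit false

open Finset Pool.Agent.H43.TC Pool.Agent.H4.TA

namespace Pool.Agent.H67.TA

theorem pf_REV : T_REV := by
  intro k t f
  unfold av
  congr 1
  exact Equiv.sum_comp (Equiv.arrowCongr (Fin.revPerm (n := t)) (Equiv.refl (Fin k × Bool))) f

end Pool.Agent.H67.TA
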